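import Mathlib
import Pool.Agent.H10.QAMain

set_option autoImplicit false

namespace Pool.Agent.Results.MP_5453bf_gt.Exact
open Pool.Agent.H10.Ced Pool.Agent.H10.QA

theorem result (d : ℕ) (hd : 2 ≤ d) : ∃ C : ℝ, ∀ (G : Type) [AddCommGroup G] [Finite G]
    [Nontrivial G], ∃ K : Cx, IsCx K ∧ Dim d K ∧ QAcyclic K ∧ Nonempty (H ℤ K d ≃+ G) ∧
      ({v | {v} ∈ K}.ncard : ℝ) ≤ C * Real.log (Nat.card G) ^ (1 / d : ℝ) :=
  bound hd

end Pool.Agent.Results.MP_5453bf_gt.Exact
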